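import Pool.Agent.H954Z.FT.St

/-!
# The orthant lemma and the coordinate bound for the F-threshold multiplicity bound
-/

set_option autoImplicit false

namespace Pool.Agent.H210Z.FT

open Pool.Agent.H954Z.FT Polynomial
open scoped NNReal

section val

variable {k : Type} [Field k] {d : ℕ} {Ω : Type} [Field Ω] {e : PS d k →+* Ω}
  {ω : Fin d → ℝ} {W : Valuation Ω ℝ≥0} {w : Ω → Fin d → ℚ}

lemma W_ne (H : ValData e ω W w) {y : Ω} (hy : y ≠ 0) : W y ≠ 0 := by
  intro h
  have := H.W_eq y hy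
  rw [h] at this
  exact (Real.exp_pos _).ne this

lemma w_mul (H : ValData e ω W w) {y z : Ω} (hy : y ≠ 0) (hz : z ≠ 0) :
    w (y * z) = w y + w z := by
  apply H.inj
  have h1 := H.W_eq _ (mul_ne_zero hy hz)
  rw [W.map_mul, NNReal.coe_mul, H.W_eq _ hy, H.W_eq _ hz, ← Real.exp_add] at h1
  have h2 := Real.exp_injective h1
  simp only [Pi.add_apply, Rat.cast_add, mul_add, Finset.sum_add_distrib]
  linarith

lemma w_congr (H : ValData e ω W w) {y z : Ω} (hy : y ≠ 0) (hz : z ≠ 0) (h : W y = W z) :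
    w y = w z := by
  apply H.inj
  have h1 := H.W_eq _ hy
  rw [h, H.W_eq _ hz] at h1
  have h2 := Real.exp_injective h1
  linarith

lemma w_one (H : ValData e ω W w) : w 1 = 0 := by
  have := w_mul H (one_ne_zero (α := Ω)) (one_ne_zero (α := Ω))
  rw [mul_one] at this
  simpa using this

lemma w_pow (H : ValData e ω W w) {y : Ω} (hy : y ≠ 0) (n : ℕ) (i : Fin d) :
    w (y ^ n) i = n * w y i := by
  induction n with
  | zero => simp [w_one H]
  | succ n ih =>
    rw [pow_succ, w_mul H (pow_ne_zero _ hy) hy, Pi.add_apply, ih]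
    push_cast
    ring

lemma w_e_nonneg (H : ValData e ω W w) {f : PS d k} (hf : f ≠ 0) (i : Fin d) :
    0 ≤ w (e f) i := by
  obtain ⟨α, -, h, -⟩ := H.lead f hf
  rw [h i]
  exact Nat.cast_nonneg _

end val

lemma w_integral {k : Type} [Field k] {d : ℕ} {K Ω : Type} [Field K] [Field Ω]
    [Algebra (PS d k) K] [IsFractionRing (PS d k) K] [Algebra K Ω]
    {ω : Fin d → ℝ} {W : Valuation Ω ℝ≥0} {w : Ω → Fin d → ℚ}
    (H : ValData ((algebraMap K Ω).comp (algebraMap (PS d k) K)) ω W w)
    {a : K} (ha : IsIntegral (PS d k) a) (ha0 : a ≠ 0) (i : Fin d) :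
    0 ≤ w (algebraMap K Ω a) i := by
  obtain ⟨c, hc, hc2⟩ := FractionalIdeal.isFractional_of_fg (S := nonZeroDivisors (PS d k))
    ha.fg_adjoin_singleton
  have hc0 : c ≠ 0 := nonZeroDivisors.ne_zero hc
  have hcK : algebraMap (PS d k) K c ≠ 0 := by
    intro h
    exact hc0 (IsFractionRing.injective (PS d k) K (by rw [h, map_zero]))
  have haΩ : algebraMap K Ω a ≠ 0 := by simpa using ha0
  have hcΩ : algebraMap K Ω (algebraMap (PS d k) K c) ≠ 0 := by simpa using hcK
  have key : ∀ n : ℕ, 0 ≤ w (algebraMap K Ω (algebraMap (PS d k) K c)) i +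
      n * w (algebraMap K Ω a) i := by
    intro n
    obtain ⟨f, hf⟩ := hc2 (a ^ n) (Subalgebra.pow_mem _ (Algebra.self_mem_adjoin_singleton _ a) n)
    have hf0 : f ≠ 0 := by
      rintro rfl
      rw [map_zero, Algebra.smul_def] at hf
      exact mul_ne_zero hcK (pow_ne_zero n ha0) hf.symm
    have h1 := w_e_nonneg H hf0 i
    rw [RingHom.comp_apply, hf, Algebra.smul_def, map_mul, map_pow,
      w_mul H hcΩ (pow_ne_zero n haΩ), Pi.add_apply, w_pow H haΩ] at h1
    exact h1
  by_contra hneg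
  push Not at hneg
  obtain ⟨n, hn⟩ := exists_nat_gt (w (algebraMap K Ω (algebraMap (PS d k) K c)) i /
    (-w (algebraMap K Ω a) i))
  rw [div_lt_iff₀ (by linarith)] at hn
  have := key n
  linarith

lemma coeff_bound {Ω : Type} [Field Ω] (W : Valuation Ω ℝ≥0) (ρ : ℝ≥0) (s : Multiset Ω)
    (hs : ∀ y ∈ s, W y ≤ ρ) (i : ℕ) :
    W (((s.map fun y => X - C y).prod).coeff i) * ρ ^ i ≤ ρ ^ (Multiset.card s) := by
  induction s using Multiset.induction_on generalizing i with
  | empty =>
    rcases i with _ | i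
    · simp
    · simp [coeff_one]
  | cons y s ih =>
    have hy : W y ≤ ρ := hs y (Multiset.mem_cons_self _ _)
    have ih' := ih (fun z hz => hs z (Multiset.mem_cons_of_mem hz))
    rw [Multiset.map_cons, Multiset.prod_cons, Multiset.card_cons, mul_comm (X - C y)]
    set Q := (s.map fun y => X - C y).prod with hQ
    rcases i with _ | i
    · rw [mul_coeff_zero]
      simp only [coeff_sub, coeff_X_zero, coeff_C_zero, zero_sub, map_mul, Valuation.map_neg,
        pow_zero, mul_one, pow_succ]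
      have := ih' 0
      rw [pow_zero, mul_one] at this
      exact mul_le_mul' this hy
    · rw [coeff_mul_X_sub_C]
      have h1 : W (Q.coeff i) * ρ ^ (i + 1) ≤ ρ ^ (Multiset.card s + 1) := by
        rw [pow_succ, pow_succ, ← mul_assoc]
        exact mul_le_mul' (ih' i) le_rfl
      have h2 : W (Q.coeff (i + 1) * y) * ρ ^ (i + 1) ≤ ρ ^ (Multiset.card s + 1) := by
        rw [map_mul, pow_succ ρ (Multiset.card s), mul_right_comm]
        exact mul_le_mul' (ih' (i + 1)) hy
      refine (mul_le_mul' (W.map_sub _ _) le_rfl).trans ?_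
      rcases le_total (W (Q.coeff i)) (W (Q.coeff (i + 1) * y)) with h | h
      · rw [max_eq_right h]; exact h2
      · rw [max_eq_left h]; exact h1

theorem thm_orthant : S_orthant := by
  intro k _ d K L Ω _ _ _ _ _ _ _ _ _ _ _ ω W w H h hint h0 σ hσ i
  have hK : IsIntegral K h := Algebra.IsIntegral.isIntegral h
  set P := minpoly K h with hP
  have hPm : P.Monic := minpoly.monic hK
  have hcoef : ∀ j, IsIntegral (PS d k) (P.coeff j) := by
    obtain ⟨p, hp, hp0⟩ := hint
    refine fun j => Polynomial.isIntegral_coeff_of_dvd p P hp hPm ?_ j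
    apply minpoly.dvd
    rw [aeval_map_algebraMap]
    exact hp0
  have hσ0 : σ h ≠ 0 := by simpa using h0
  set ρ := W (σ h) with hρ
  have hρ0 : ρ ≠ 0 := W_ne H hσ0
  set Q := P.map (algebraMap K Ω) with hQ
  have hQm : Q.Monic := hPm.map _
  have hsp : Q.Splits := IsAlgClosed.splits Q
  have hprod : Q = (Q.roots.map fun y => X - C y).prod := hsp.eq_prod_roots_of_monic hQm
  have hcard : Multiset.card Q.roots = Q.natDegree := hsp.natDegree_eq_card_roots.symm
  have hroots : ∀ y ∈ Q.roots, W y ≤ ρ := by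
    intro y hy
    have : y ∈ P.rootSet Ω := by
      rw [mem_rootSet_of_ne hPm.ne_zero]
      have := (mem_roots hQm.ne_zero).mp hy
      rwa [IsRoot.def, hQ, eval_map_algebraMap] at this
    rw [hP, ← Algebra.IsAlgebraic.range_eval_eq_rootSet_minpoly Ω h] at this
    obtain ⟨τ, rfl⟩ := this
    exact hσ τ
  have hb : ∀ j, W (Q.coeff j) * ρ ^ j ≤ ρ ^ Q.natDegree := by
    intro j
    have := coeff_bound W ρ Q.roots hroots j
    rwa [← hprod, hcard] at this
  have hev : Q.eval (σ h) = 0 := by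
    rw [hQ, eval_map_algebraMap, aeval_algHom_apply, hP, minpoly.aeval, map_zero]
  have hex : ∃ j < Q.natDegree, W (Q.coeff j) * ρ ^ j = ρ ^ Q.natDegree := by
    by_contra hno
    push Not at hno
    rw [eval_eq_sum_range, Finset.sum_range_succ, hQm.coeff_natDegree, one_mul] at hev
    have h1 : W (∑ j ∈ Finset.range Q.natDegree, Q.coeff j * σ h ^ j) < ρ ^ Q.natDegree := by
      refine W.map_sum_lt (pow_ne_zero _ hρ0) fun j hj => ?_
      rw [map_mul, map_pow]
      exact lt_of_le_of_ne (hb j) (hno j (Finset.mem_range.mp hj))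
    rw [eq_neg_of_add_eq_zero_left hev, Valuation.map_neg, map_pow] at h1
    exact lt_irrefl _ h1
  obtain ⟨j, hj, hje⟩ := hex
  have hc0 : Q.coeff j ≠ 0 := by
    intro hc
    rw [hc, map_zero, zero_mul] at hje
    exact pow_ne_zero _ hρ0 hje.symm
  have h2 : w (Q.coeff j * σ h ^ j) = w (σ h ^ Q.natDegree) := by
    refine w_congr H (mul_ne_zero hc0 (pow_ne_zero _ hσ0)) (pow_ne_zero _ hσ0) ?_
    rw [map_mul, map_pow, map_pow]
    exact hje
  have h3 := congrFun h2 i
  rw [w_mul H hc0 (pow_ne_zero _ hσ0), Pi.add_apply, w_pow H hσ0, w_pow H hσ0] at h3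
  have h4 : 0 ≤ w (Q.coeff j) i := by
    have hc1 : P.coeff j ≠ 0 := by
      intro hc
      apply hc0
      rw [hQ, coeff_map, hc, map_zero]
    have := w_integral H (hcoef j) hc1 i
    rwa [hQ, coeff_map]
  have h5 : (j : ℚ) < Q.natDegree := by exact_mod_cast hj
  by_contra hneg
  push Not at hneg
  nlinarith

theorem thm_approx : S_approx := by
  intro K L Ω _ _ _ _ _ _ _ _ W r l
  classical
  haveI : Nonempty (L →ₐ[K] Ω) := ⟨IsAlgClosed.lift⟩
  refine ⟨1 + ∑ s : Fin r, ∑ σ : L →ₐ[K] Ω, W (σ (l.traceDual s)), le_self_add, fun h s => ?_⟩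
  obtain ⟨σ, hσ⟩ := Finite.exists_max fun σ : L →ₐ[K] Ω => W (σ h)
  refine ⟨σ, ?_⟩
  have e1 : l.repr h s = Algebra.trace K L (h * l.traceDual s) := by
    have := l.traceDual.traceDual_repr_apply h s
    rw [Module.Basis.traceDual_traceDual] at this
    rw [this, Algebra.traceForm_apply]
  rw [e1, trace_eq_sum_embeddings Ω]
  refine W.map_sum_le fun τ _ => ?_
  rw [map_mul, map_mul, mul_comm]
  refine mul_le_mul' ?_ (hσ τ)
  refine le_add_left ?_
  refine le_trans ?_ (Finset.single_le_sum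
    (f := fun s : Fin r => ∑ σ : L →ₐ[K] Ω, W (σ (l.traceDual s))) (fun _ _ => zero_le)
    (Finset.mem_univ s))
  exact Finset.single_le_sum (f := fun σ : L →ₐ[K] Ω => W (σ (l.traceDual s)))
    (fun _ _ => zero_le) (Finset.mem_univ τ)

end Pool.Agent.H210Z.FT
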